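import Pool.Agent.H95.DR.Targets

/-!
# dfx_modules, row APG: the point of a basis
-/

set_option autoImplicit false

open MeasureTheory Set Filter NumberField
open scoped Real nonZeroDivisors Matrix MatrixGroups

open Pool.Agent.H31.CN Pool.Agent.H89.FM Pool.Agent.H61.FM Pool.Agent.H89.FC Pool.Agent.H95.FC
open Pool.Agent.H89.DF Pool.Agent.H95.DR

namespace Pool.Agent.H26.DF

section

variable {K : Type} [Field K]

lemma pb_rel {σ σ' : K →+* ℝ} {N : ℝ} {a b : 𝓞 K} {Q : QF} (h : PB σ σ' N a b Q) :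
    σ (a : K) * σ' (a : K) = N * Q.1 ∧ σ (b : K) * σ' (b : K) = N * Q.2.2 ∧
      σ (a : K) * σ' (b : K) + σ' (a : K) * σ (b : K) = N * Q.2.1 := by
  have h1 := h.nrm (1, 0)
  have h2 := h.nrm (0, 1)
  have h3 := h.nrm (1, 1)
  simp only [lv, val, Int.cast_one, Int.cast_zero, one_mul, zero_mul, add_zero, zero_add,
    one_pow, mul_one, ne_eq, OfNat.ofNat_ne_zero, not_false_eq_true, zero_pow, mul_zero]
    at h1 h2 h3
  have e3 : ((a + b : 𝓞 K) : K) = (a : K) + (b : K) := by simp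
  rw [e3, map_add, map_add] at h3
  push_cast at h1 h2 h3
  refine ⟨h1, h2, ?_⟩
  nlinarith [h1, h2, h3]

lemma ph_lv (σ σ' : K →+* ℝ) (τ : ℝ) (a b : 𝓞 K) (v : ℤ × ℤ) :
    ph σ σ' τ (lv K a b v) = (v.1 : ℂ) * ph σ σ' τ a + (v.2 : ℂ) * ph σ σ' τ b := by
  have e : ((lv K a b v : 𝓞 K) : K) = (v.1 : K) * (a : K) + (v.2 : K) * (b : K) := by
    simp [lv]
  unfold ph
  rw [e, map_add, map_add, map_mul, map_mul, map_mul, map_mul, map_intCast, map_intCast,
    map_intCast, map_intCast]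
  push_cast
  ring

lemma normSq_ph (σ σ' : K →+* ℝ) (τ : ℝ) (a : 𝓞 K) :
    Complex.normSq (ph σ σ' τ a) =
      (Real.exp (τ / 2) * σ (a : K)) ^ 2 + (Real.exp (-(τ / 2)) * σ' (a : K)) ^ 2 := by
  unfold ph
  rw [Complex.normSq_add_mul_I]

lemma exp_mul_exp (τ : ℝ) : Real.exp (τ / 2) * Real.exp (-(τ / 2)) = 1 := by
  rw [← Real.exp_add]
  simp

end

theorem pf_PBG (hPHX : T_PHX) : T_PBG := by
  intro K _ _ σ σ' N a b Q h
  obtain ⟨h1, h2, h3⟩ := pb_rel h
  have hN := h.pos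
  have ho := h.ori
  set A := σ (a : K) with hA
  set A' := σ' (a : K) with hA'
  set B := σ (b : K) with hB
  set B' := σ' (b : K) with hB'
  have hdsc : (dsc Q : ℝ) = 4 * Q.1 * Q.2.2 - Q.2.1 ^ 2 := by
    unfold dsc
    push_cast
    ring
  have hsq : (A * B' - B * A') ^ 2 = N ^ 2 * (-(dsc Q : ℝ)) := by
    have e1 : (A * B' - B * A') ^ 2 = (A * B' + A' * B) ^ 2 - 4 * (A * A') * (B * B') := by ring
    rw [e1, h1, h2, h3, hdsc]
    ring
  have hd : (0 : ℝ) < -(dsc Q : ℝ) := by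
    have e2 : 0 < N ^ 2 * (-(dsc Q : ℝ)) := by
      rw [← hsq]
      positivity
    exact (mul_pos_iff_of_pos_left (by positivity)).1 e2
  have hD : A * B' - B * A' = N * Real.sqrt (-(dsc Q : ℝ)) := by
    have e3 : Real.sqrt ((A * B' - B * A') ^ 2) = N * Real.sqrt (-(dsc Q : ℝ)) := by
      rw [hsq, Real.sqrt_mul (by positivity), Real.sqrt_sq hN.le]
    rw [← e3, Real.sqrt_sq ho.le]
  refine ⟨hd, hD, fun τ => ?_⟩
  have hpq := exp_mul_exp τ
  set p := Real.exp (τ / 2) with hp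
  set q := Real.exp (-(τ / 2)) with hq
  have hp0 : 0 < p := Real.exp_pos _
  have hq0 : 0 < q := Real.exp_pos _
  have hphA : ph σ σ' τ a = ((p * A : ℝ) : ℂ) + ((q * A' : ℝ) : ℂ) * Complex.I := rfl
  have hphB : ph σ σ' τ b = ((p * B : ℝ) : ℂ) + ((q * B' : ℝ) : ℂ) * Complex.I := rfl
  have hn : Complex.normSq (ph σ σ' τ a) = (p * A) ^ 2 + (q * A') ^ 2 := normSq_ph σ σ' τ a
  have hnpos : 0 < (p * A) ^ 2 + (q * A') ^ 2 := by
    by_contra hc
    have hc' : (p * A) ^ 2 + (q * A') ^ 2 ≤ 0 := not_lt.1 hc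
    have e4 : p * A = 0 := by nlinarith [sq_nonneg (p * A), sq_nonneg (q * A')]
    have e5 : q * A' = 0 := by nlinarith [sq_nonneg (p * A), sq_nonneg (q * A')]
    have e6 : A = 0 := by
      rcases mul_eq_zero.1 e4 with e | e
      · exact absurd e hp0.ne'
      · exact e
    have e7 : A' = 0 := by
      rcases mul_eq_zero.1 e5 with e | e
      · exact absurd e hq0.ne'
      · exact e
    rw [e6, e7] at ho
    simp at ho
  set n := (p * A) ^ 2 + (q * A') ^ 2 with hndef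
  have hre : (zp σ σ' τ a b).re = (p ^ 2 * (A * B) + q ^ 2 * (A' * B')) / n := by
    unfold zp
    rw [Complex.div_re, hn, hphA, hphB]
    simp only [Complex.add_re, Complex.ofReal_re, Complex.mul_re, Complex.ofReal_im,
      Complex.I_re, Complex.I_im, Complex.add_im, Complex.mul_im]
    ring
  have him : (zp σ σ' τ a b).im = (A * B' - B * A') / n := by
    unfold zp
    rw [Complex.div_im, hn, hphA, hphB]
    simp only [Complex.add_re, Complex.ofReal_re, Complex.mul_re, Complex.ofReal_im,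
      Complex.I_re, Complex.I_im, Complex.add_im, Complex.mul_im]
    rw [← sub_div]
    congr 1
    have : (0 * 0 : ℝ) = 0 := by ring
    linear_combination (A * B' - B * A') * hpq
  have hane : ph σ σ' τ a ≠ 0 := by
    intro h0
    rw [h0] at hn
    simp at hn
    rw [← hn] at hnpos
    exact lt_irrefl _ hnpos
  have hyp : 0 < (zp σ σ' τ a b).im := by
    rw [him]
    exact div_pos ho hnpos
  refine ⟨hyp, ?_, fun v hv => ?_⟩
  · unfold Geo
    rw [hre, him]
    have hNne : N ≠ 0 := hN.ne'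
    have hnne : n ≠ 0 := hnpos.ne'
    have key : N * ((Q.1 : ℝ) * (((p ^ 2 * (A * B) + q ^ 2 * (A' * B')) / n) ^ 2 +
        ((A * B' - B * A') / n) ^ 2) - Q.2.1 * ((p ^ 2 * (A * B) + q ^ 2 * (A' * B')) / n) +
        Q.2.2) = 0 := by
      have e8 : N * ((Q.1 : ℝ) * (((p ^ 2 * (A * B) + q ^ 2 * (A' * B')) / n) ^ 2 +
        ((A * B' - B * A') / n) ^ 2) - Q.2.1 * ((p ^ 2 * (A * B) + q ^ 2 * (A' * B')) / n) +
        Q.2.2) = (N * Q.1) * (((p ^ 2 * (A * B) + q ^ 2 * (A' * B')) / n) ^ 2 +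
        ((A * B' - B * A') / n) ^ 2) -
        (N * Q.2.1) * ((p ^ 2 * (A * B) + q ^ 2 * (A' * B')) / n) + N * Q.2.2 := by ring
      rw [e8, ← h1, ← h2, ← h3]
      have e9 : (p ^ 2 * (A * B) + q ^ 2 * (A' * B')) ^ 2 + (A * B' - B * A') ^ 2 =
          n * ((p * B) ^ 2 + (q * B') ^ 2) := by
        rw [hndef]
        have e10 : (p * q) ^ 2 = 1 := by rw [hpq]; ring
        linear_combination (-(A * B' - B * A') ^ 2) * e10
      have e11 : ((p ^ 2 * (A * B) + q ^ 2 * (A' * B')) / n) ^ 2 +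
          ((A * B' - B * A') / n) ^ 2 = ((p * B) ^ 2 + (q * B') ^ 2) / n := by
        rw [div_pow, div_pow, ← add_div, e9, sq n, mul_div_mul_left _ _ hnne]
      rw [e11]
      field_simp
      rw [hndef]
      ring
    rcases mul_eq_zero.1 key with e | e
    · exact absurd e hNne
    · exact e
  · obtain ⟨hlne, hlw, hln, -⟩ := hPHX K σ σ' τ (lv K a b v) hv
    set z := zp σ σ' τ a b with hz
    have hzx : ((z.re : ℝ) : ℂ) + ((z.im : ℝ) : ℂ) * Complex.I = z := Complex.re_add_im z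
    have hzc : ((z.re : ℝ) : ℂ) - ((z.im : ℝ) : ℂ) * Complex.I = (starRingEnd ℂ) z := by
      apply Complex.ext
      · simp
      · simp
    have hfac : (v.1 : ℂ) + v.2 * z = ph σ σ' τ (lv K a b v) / ph σ σ' τ a := by
      rw [ph_lv, hz]
      unfold zp
      field_simp
    have hfne : (v.1 : ℂ) + v.2 * z ≠ 0 := by
      rw [hfac]
      exact div_ne_zero hlne hane
    have hconj : (v.1 : ℂ) + v.2 * (starRingEnd ℂ) z = (starRingEnd ℂ) ((v.1 : ℂ) + v.2 * z) := by
      simp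
    have han : Pool.Agent.H89.FC.an z.re z.im v = ((v.1 : ℂ) + v.2 * z) / (starRingEnd ℂ) ((v.1 : ℂ) + v.2 * z) := by
      unfold Pool.Agent.H89.FC.an
      rw [hzx, hzc, hconj]
    refine ⟨?_, ?_, ?_⟩
    · rw [han, norm_div, Complex.norm_conj, div_self]
      exact norm_ne_zero_iff.2 hfne
    · rw [han, hfac, map_div₀]
      unfold wp
      have hca : (starRingEnd ℂ) (ph σ σ' τ a) ≠ 0 := by
        rw [Ne, map_eq_zero]
        exact hane
      have hcl : (starRingEnd ℂ) (ph σ σ' τ (lv K a b v)) ≠ 0 := by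
        rw [Ne, map_eq_zero]
        exact hlne
      field_simp
    · have e12 : ((v.1 : ℝ) + v.2 * z.re) ^ 2 + ((v.2 : ℝ) * z.im) ^ 2 =
          Complex.normSq ((v.1 : ℂ) + v.2 * z) := by
        rw [Complex.normSq_apply]
        have r1 : ((v.1 : ℂ) + v.2 * z).re = (v.1 : ℝ) + v.2 * z.re := by simp
        have r2 : ((v.1 : ℂ) + v.2 * z).im = (v.2 : ℝ) * z.im := by simp
        rw [r1, r2]
        ring
      unfold qz
      rw [e12, hfac, Complex.normSq_div, hn, hln, h.nrm v, him, hD]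
      have hs : 0 < Real.sqrt (-(dsc Q : ℝ)) := Real.sqrt_pos.2 hd
      rw [abs_mul, abs_of_pos hN]
      have hnne : n ≠ 0 := hnpos.ne'
      have hNne : N ≠ 0 := hN.ne'
      have hsne := hs.ne'
      field_simp

end Pool.Agent.H26.DF
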